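import Mathlib
import Pool.Agent.K.MP_e3ee0c_gt.C17

open Set Filter Topology
open scoped ContDiff InnerProductSpace

namespace Pool.Agent.Results.MP_e3ee0c_gt.CotangentLevel

open Pool.Agent.Wein

/-- The Weinstein conjecture for compact levels of exact contact type in the cotangent bundle of a
closed manifold that is not simply connected. -/
theorem result {E : Type} [NormedAddCommGroup E] [InnerProductSpace ℝ E] [FiniteDimensional ℝ E]
    (N : Set E) (hN : IsSubmanifold N) (hc : IsCompact N) (hp : IsPathConnected N)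
    (γ : C(UnitAddCircle, N)) (hγ : ¬ γ.Nullhomotopic)
    (H : E × E → ℝ) (hH : ContDiff ℝ ∞ H) (c : ℝ) (hne : ∃ z ∈ Cot N, H z = c)
    (hS : IsCompact {z | z ∈ Cot N ∧ H z = c})
    (W : Set (E × E)) (hW : IsOpen W) (hSW : ∀ z ∈ Cot N, H z = c → z ∈ W)
    (Y : E × E → E × E) (hY : ContDiffOn ℝ ∞ Y W) (β : E × E → ℝ) (hβ : ContDiffOn ℝ ∞ β W)
    (θ : E → E) (hθ : ContDiff ℝ ∞ θ)
    (hcl : ∀ x ∈ N, ∀ u ∈ Tan N x, ∀ v ∈ Tan N x,
      ⟪fderiv ℝ θ x u, v⟫_ℝ = ⟪fderiv ℝ θ x v, u⟫_ℝ)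
    (hL : ∀ z ∈ Cot N, z ∈ W → Y z ∈ Tan (Cot N) z ∧
      ∀ v ∈ Tan (Cot N) z, omega (Y z) v = ⟪z.2 + θ z.1, v.1⟫_ℝ + fderiv ℝ β z v)
    (htr : ∀ z ∈ Cot N, H z = c → fderiv ℝ H z (Y z) ≠ 0) :
    ∃ (z : ℝ → E × E) (T : ℝ), IsOrbit N H z ∧ 0 < T ∧ (∀ t, z (t + T) = z t) ∧
      ∀ t, H (z t) = c := by
  obtain ⟨χ, hχ, -, hs, -, h1⟩ := exists_bump _ W hS hW fun z hz => hSW z hz.1 hz.2
  have hin : ∀ z ∈ Cot N, H z = c → z ∈ interior {y | χ y = 1} := fun z hz h =>
    mem_interior_iff_mem_nhds.2 (h1.filter_mono (nhds_le_nhdsSet (s := {z | z ∈ Cot N ∧ H z = c})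
      ⟨hz, h⟩))
  have hone : ∀ z ∈ interior {y | χ y = 1}, χ z = 1 := fun z hz =>
    (interior_subset hz : z ∈ {y | χ y = 1})
  refine general N hN hc hp γ hγ H hH c hne hS (fun z => χ z • Y z)
    (contDiff_smul_cut W hW χ hχ hs Y hY) (fun z => χ z • β z)
    (contDiff_smul_cut W hW χ hχ hs β hβ) θ hθ hcl (W ∩ interior {y | χ y = 1})
    (hW.inter isOpen_interior) (fun z hz h => ⟨hSW z hz h, hin z hz h⟩) (fun z hz h => ?_)
    fun z hz h => ?_
  · have e : (fun y => χ y • β y) =ᶠ[𝓝 z] β := by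
      filter_upwards [isOpen_interior.mem_nhds h.2] with y hy
      rw [hone y hy, one_smul]
    rw [e.fderiv_eq, hone z h.2, one_smul]
    exact hL z hz h.1
  · rw [hone z (hin z hz h), one_smul]
    exact htr z hz h

/-! Side theorems: controls of the definitions and of the hypotheses of `result`. -/

section Controls

variable {E : Type} [NormedAddCommGroup E] [InnerProductSpace ℝ E] [FiniteDimensional ℝ E]

/-- Control of Tan: where N is the zero set of a submersion f, Tan N x is the kernel of df. -/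
theorem tan_eq_ker (N : Set E) (k : ℕ) (f : E → EuclideanSpace ℝ (Fin k)) (W : Set E)
    (hW : IsOpen W) (hf : ContDiffOn ℝ ∞ f W) (hs : ∀ y ∈ W, Function.Surjective (fderiv ℝ f y))
    (hN : ∀ y ∈ W, (y ∈ N ↔ f y = 0)) (x : E) (hxW : x ∈ W) (hxN : x ∈ N) :
    Tan N x = {v | fderiv ℝ f x v = 0} := by
  have := FiniteDimensional.complete ℝ E
  have hd : HasStrictFDerivAt f (fderiv ℝ f x) x :=
    (hf.contDiffAt (hW.mem_nhds hxW)).hasStrictFDerivAt (by simp)
  ext v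
  constructor
  · intro hv
    have := Tan.fderiv_congr hv hd.hasFDerivAt.differentiableAt (differentiableAt_const 0)
      (by filter_upwards [hW.mem_nhds hxW] with y hy h using (hN y hy).1 h)
    simpa using this
  · intro hv
    have hr : (fderiv ℝ f x).range = ⊤ := LinearMap.range_eq_top.2 (hs x hxW)
    let w : (fderiv ℝ f x).ker := ⟨v, hv⟩
    have h1 := (hd.to_implicitFunction hr).hasFDerivAt
    have h2 : HasDerivAt (fun t : ℝ => t • w) w 0 := by
      simpa using (hasDerivAt_id (0 : ℝ)).smul_const w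
    have h0 : hd.implicitFunction f _ hr (f x) 0 = x := by
      simp
    have h3 : HasDerivAt (fun t : ℝ => hd.implicitFunction f _ hr (f x) (t • w)) v 0 :=
      HasFDerivAt.comp_hasDerivAt_of_eq (0 : ℝ) h1 h2 (by simp)
    have h4 : Tendsto (fun t : ℝ => (f x, t • w)) (𝓝 0) (𝓝 (f x, 0)) := by
      have : Continuous fun t : ℝ => (f x, t • w) := by fun_prop
      simpa using this.tendsto 0
    refine ⟨_, by simp, ?_, h3⟩
    have h5 : ∀ᶠ t : ℝ in 𝓝 0, hd.implicitFunction f _ hr (f x) (t • w) ∈ W :=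
      h3.continuousAt.eventually (by simpa [h0] using hW.mem_nhds hxW)
    filter_upwards [h4.eventually (hd.map_implicitFunction_eq hr), h5] with t ht ht'
    exact (hN _ ht').2 (ht.trans ((hN x hxW).1 hxN))

omit [FiniteDimensional ℝ E] in
/-- Control of IsOrbit: an orbit is not at rest at a point where some tangent vector Y has
dH(Y) ≠ 0. So the periodic orbit of `result` is nowhere at rest. -/
theorem not_at_rest (N : Set E) (H : E × E → ℝ) (z : ℝ → E × E) (hz : IsOrbit N H z) (t : ℝ)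
    (Y : E × E) (hY : Y ∈ Tan (Cot N) (z t)) (htr : fderiv ℝ H (z t) Y ≠ 0) :
    ¬ HasDerivAt z 0 t := by
  obtain ⟨-, v, hv, h⟩ := hz t
  intro h0
  have h1 := h Y hY
  rw [hv.unique h0] at h1
  exact htr (by simpa [omega] using h1)

omit [FiniteDimensional ℝ E] in
lemma tan_cot (R : Ret E) {z : E × E} (hz : z ∈ Cot R.S) (u : E × E) :
    u ∈ Tan (Cot R.S) z ↔
      (R.P z.1 u.1, fderiv ℝ R.P z.1 (R.P z.1 u.1) z.2 + R.P z.1 u.2) = u := by
  rw [← R.fderiv_hat hz]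
  exact R.hat.tan_iff hz u

/-- Control of omega and IsOrbit: for the kinetic energy the orbits are the geodesics of N with
their velocities (x' = p, and p' is normal to N). -/
theorem orbit_iff_geodesic (N : Set E) (hN : IsSubmanifold N) (hc : IsCompact N)
    (x p : ℝ → E) :
    IsOrbit N (fun z => ‖z.2‖ ^ 2 / 2) (fun t => (x t, p t)) ↔
      ∀ t, x t ∈ N ∧ HasDerivAt x (p t) t ∧
        ∃ a, HasDerivAt p a t ∧ ∀ w ∈ Tan N (x t), ⟪a, w⟫_ℝ = 0 := by
  obtain ⟨R, rfl⟩ := exists_ret N hN hc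
  have hH : ∀ z u : E × E, fderiv ℝ (fun z : E × E => ‖z.2‖ ^ 2 / 2) z u = ⟪z.2, u.2⟫_ℝ := by
    intro z u
    have := ((hasFDerivAt_snd (𝕜 := ℝ) (p := z)).norm_sq).mul_const (2 : ℝ)⁻¹
    simp only [div_eq_mul_inv]
    rw [this.fderiv]
    simp
  constructor
  · intro h t
    obtain ⟨hz, v, hv, he⟩ := h t
    obtain ⟨hx, hp⟩ := (R.mem_cot _).1 hz
    have hvT : v ∈ Tan (Cot R.S) (x t, p t) :=
      Tan.of_hasDerivAt hv (Eventually.of_forall fun s => (h s).1)
    have hv1 := R.tan_cot_fst hz hvT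
    have e1 : v.1 = p t := by
      have := he (0, v.1 - p t) ((tan_cot R hz _).2 (by simp at hv1 hp; simp [hv1, hp]))
      rw [hH] at this
      have h2 : ⟪v.1 - p t, v.1 - p t⟫_ℝ = 0 := by
        rw [inner_sub_right, real_inner_comm (p t)]
        simp only [omega, inner_zero_right, zero_sub, neg_inj] at this
        rw [this, real_inner_comm, sub_self]
      exact sub_eq_zero.1 (inner_self_eq_zero.1 h2)
    refine ⟨hx, e1 ▸ hv.fst, v.2, hv.snd, fun w hw => ?_⟩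
    have hw' := (R.mem_tan hx w).1 hw
    have := he (w, fderiv ℝ R.P (x t) w (p t))
      ((tan_cot R hz _).2 (by simp at hw' hp; simp [hw', R.P_DP hx hw' hp]))
    rw [hH] at this
    simp only [omega, e1] at this
    rw [real_inner_comm (p t)] at this
    linarith
  · intro h t
    obtain ⟨hx, hp, a, ha, hn⟩ := h t
    have hz : (x t, p t) ∈ Cot R.S :=
      ⟨hx, Tan.of_hasDerivAt hp (Eventually.of_forall fun s => (h s).1)⟩
    refine ⟨hz, (p t, a), hp.prodMk ha, fun u hu => ?_⟩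
    rw [hH]
    simp only [omega]
    rw [hn _ ((R.mem_tan hx _).2 (R.tan_cot_fst hz hu)), real_inner_comm, zero_sub]

/-- For every N as in `result` and every smooth θ tangent to N, the unit sphere bundle shifted
by -θ meets the hypotheses on H, c, Y, β (with W the whole space and β = 0). -/
theorem shifted_level (N : Set E) (hN : IsSubmanifold N) (hc : IsCompact N)
    (γ : C(UnitAddCircle, N)) (hγ : ¬ γ.Nullhomotopic)
    (θ : E → E) (hθ : ContDiff ℝ ∞ θ) (hT : ∀ x ∈ N, θ x ∈ Tan N x)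
    (H : E × E → ℝ) (eH : H = fun z => ‖z.2 + θ z.1‖ ^ 2 / 2)
    (Y : E × E → E × E) (eY : Y = fun z => (0, z.2 + θ z.1)) :
    ContDiff ℝ ∞ H ∧ (∃ z ∈ Cot N, H z = 1 / 2) ∧ IsCompact {z | z ∈ Cot N ∧ H z = 1 / 2} ∧
      ContDiff ℝ ∞ Y ∧
      (∀ z ∈ Cot N, Y z ∈ Tan (Cot N) z ∧ ∀ v ∈ Tan (Cot N) z,
        omega (Y z) v = ⟪z.2 + θ z.1, v.1⟫_ℝ + fderiv ℝ (fun _ : E × E => (0 : ℝ)) z v) ∧
      ∀ z ∈ Cot N, H z = 1 / 2 → fderiv ℝ H z (Y z) ≠ 0 := by
  obtain ⟨R, rfl⟩ := exists_ret N hN hc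
  have hq : ContDiff ℝ ∞ fun z : E × E => z.2 + θ z.1 := contDiff_snd.add (hθ.comp contDiff_fst)
  have hH : ContDiff ℝ ∞ H := eH ▸ (hq.norm_sq ℝ).div_const 2
  have hP : ∀ x ∈ R.S, R.P x (θ x) = θ x := fun x hx => (R.mem_tan hx _).1 (hT x hx)
  refine ⟨hH, ?_, ?_, eY ▸ contDiff_const.prodMk hq, fun z hz => ⟨?_, ?_⟩, ?_⟩
  · by_contra hno
    have hz : ∀ x ∈ R.S, ∀ v ∈ Tan R.S x, v = 0 := by
      intro x hx v hv
      by_contra hv0
      have hv' := (R.mem_tan hx v).1 hv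
      refine hno ⟨(x, ‖v‖⁻¹ • v - θ x), (R.mem_cot _).2 ⟨hx, by simp [hv', hP x hx]⟩, ?_⟩
      simp [eH, norm_smul, hv0]
    have hloc : ∀ x ∈ R.S, ∀ᶠ y in 𝓝 x, R.r y = x := by
      intro x hx
      obtain ⟨ε, hε, hb⟩ := Metric.isOpen_iff.1 R.isOpen x (R.sub hx)
      filter_upwards [Metric.ball_mem_nhds x hε] with y hy
      rw [← R.fix x hx]
      refine Metric.isOpen_ball.is_const_of_fderiv_eq_zero (𝕜 := ℝ) (convex_ball x ε).isPreconnected
        (R.smooth.differentiable (by simp)).differentiableOn (fun w hw => ?_) hy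
        (Metric.mem_ball_self hε)
      ext v
      exact hz _ (R.maps (hb hw)) _ (R.toGRet.fderiv_mem_tan (hb hw) v)
    have hlc : IsLocallyConstant γ := by
      rw [IsLocallyConstant.iff_eventually_eq]
      intro t
      have := (continuous_subtype_val.comp γ.continuous).continuousAt.eventually
        (hloc (γ t) (γ t).2)
      filter_upwards [this] with s hs
      exact Subtype.ext ((R.fix _ (γ s).2).symm.trans hs)
    refine hγ ⟨γ 0, ?_⟩
    have : γ = ContinuousMap.const _ (γ 0) :=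
      ContinuousMap.ext fun t => hlc.apply_eq_of_preconnectedSpace t 0
    rw [← this]
  · have hK : IsCompact ((fun y : E × E => (y.1, y.2 - θ y.1)) '' (R.S ×ˢ Metric.closedBall 0 1)) :=
      (R.compact.prod (isCompact_closedBall 0 1)).image
        (continuous_fst.prodMk (continuous_snd.sub (hθ.continuous.comp continuous_fst)))
    refine hK.of_isClosed_subset
      (R.hat.closed.inter (isClosed_eq hH.continuous continuous_const)) ?_
    rintro z ⟨hz, h1⟩
    refine ⟨(z.1, z.2 + θ z.1), ⟨hz.1, ?_⟩, by simp⟩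
    rw [eH] at h1
    simp only at h1
    rw [mem_closedBall_zero_iff]
    nlinarith [norm_nonneg (z.2 + θ z.1)]
  · obtain ⟨hx, hz2⟩ := (R.mem_cot z).1 hz
    exact (tan_cot R hz _).2 (by simp [eY, hz2, hP _ hx])
  · intro v _
    simp [eY, omega]
  · intro z _ h1
    have hd : HasFDerivAt (fun z : E × E => ‖z.2 + θ z.1‖ ^ 2 * (2 : ℝ)⁻¹) _ z :=
      ((hasFDerivAt_snd (𝕜 := ℝ) (p := z)).add ((hθ.differentiable (by simp) z.1).hasFDerivAt.comp
        z hasFDerivAt_fst)).norm_sq.mul_const (2 : ℝ)⁻¹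
    rw [eH] at h1 ⊢
    simp only [div_eq_mul_inv]
    rw [hd.fderiv, eY]
    simp only at h1
    have : ⟪z.2, z.2 + θ z.1⟫_ℝ + ⟪θ z.1, z.2 + θ z.1⟫_ℝ = 1 := by
      rw [← inner_add_left, real_inner_self_eq_norm_sq]
      linarith
    simp [this]

/-- Control case of `result`: it contains the classical theorem that a closed manifold which is
not simply connected carries a closed geodesic. -/
theorem closed_geodesic (N : Set E) (hN : IsSubmanifold N) (hc : IsCompact N)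
    (hp : IsPathConnected N) (γ : C(UnitAddCircle, N)) (hγ : ¬ γ.Nullhomotopic) :
    ∃ (x p : ℝ → E) (T : ℝ), 0 < T ∧ ∀ t, x (t + T) = x t ∧ x t ∈ N ∧ HasDerivAt x (p t) t ∧
      ‖p t‖ = 1 ∧ ∃ a, HasDerivAt p a t ∧ ∀ w ∈ Tan N (x t), ⟪a, w⟫_ℝ = 0 := by
  obtain ⟨h1, h2, h3, h4, h5, h6⟩ := shifted_level N hN hc γ hγ (fun _ => 0) contDiff_const
    (fun x hx => ⟨fun _ => x, rfl, Eventually.of_forall fun _ => hx, hasDerivAt_const _ _⟩)
    (fun z => ‖z.2‖ ^ 2 / 2) (by simp) _ rfl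
  obtain ⟨z, T, hz, hT, hper, hl⟩ := result N hN hc hp γ hγ _ h1 _ h2 h3 univ isOpen_univ
    (fun _ _ _ => mem_univ _) _ h4.contDiffOn (fun _ => 0) contDiffOn_const (fun _ => 0)
    contDiff_const (by simp) (fun z hz _ => h5 z hz) h6
  have hg := (orbit_iff_geodesic N hN hc (fun t => (z t).1) fun t => (z t).2).1 hz
  refine ⟨fun t => (z t).1, fun t => (z t).2, T, hT, fun t =>
    ⟨congrArg Prod.fst (hper t), (hg t).1, (hg t).2.1, ?_, (hg t).2.2⟩⟩
  exact (pow_eq_one_iff_of_nonneg (norm_nonneg _) two_ne_zero).1 (by linarith [hl t])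

end Controls

/-- The unit circle, its standard loop and the forms θ = a dφ meet the hypotheses on N, γ, θ of
`result` and of `shifted_level`. For |a| > 1 the shifted level lies on one side of the zero
section. -/
theorem circle (a : ℝ) (N : Set ℂ) (eN : N = Metric.sphere 0 1) (θ : ℂ → ℂ)
    (eθ : θ = fun x => a • (Complex.I * x)) :
    IsSubmanifold N ∧ IsCompact N ∧ IsPathConnected N ∧
      (∃ γ : C(UnitAddCircle, N), ¬ γ.Nullhomotopic) ∧ ContDiff ℝ ∞ θ ∧
      (∀ x ∈ N, θ x ∈ Tan N x ∧ ‖θ x‖ = |a|) ∧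
      ∀ x ∈ N, ∀ u ∈ Tan N x, ∀ v ∈ Tan N x,
        ⟪fderiv ℝ θ x u, v⟫_ℝ = ⟪fderiv ℝ θ x v, u⟫_ℝ := by
  subst eN eθ
  have hsq : ∀ y : ℂ, y ∈ Metric.sphere (0 : ℂ) 1 ↔ ‖y‖ ^ 2 = 1 := fun y => by
    rw [mem_sphere_zero_iff_norm, pow_eq_one_iff_of_nonneg (norm_nonneg y) two_ne_zero]
  have hn : ∀ y : ℂ, HasFDerivAt (fun y : ℂ => ‖y‖ ^ 2) (2 • (innerSL ℝ y)) y := fun y =>
    (hasStrictFDerivAt_norm_sq y).hasFDerivAt
  have hθ : ∀ y : ℂ, HasFDerivAt (fun x : ℂ => a • (Complex.I * x))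
      (a • ContinuousLinearMap.mul ℝ ℂ Complex.I) y := fun y =>
    (a • ContinuousLinearMap.mul ℝ ℂ Complex.I).hasFDerivAt
  refine ⟨fun x hx => ?_, isCompact_sphere 0 1,
    isPathConnected_sphere (by simp) 0 zero_le_one, ?_, by fun_prop, fun x hx => ⟨?_, ?_⟩,
    fun x hx u hu v hv => ?_⟩
  · let L : ℝ →L[ℝ] EuclideanSpace ℝ (Fin 1) :=
      ContinuousLinearMap.toSpanSingleton ℝ (EuclideanSpace.single 0 1)
    have hL : ∀ s : ℝ, L s 0 = s := fun s => by simp [L]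
    refine ⟨1, fun y => L (‖y‖ ^ 2 - 1), {0}ᶜ, isOpen_compl_singleton, ?_,
      (L.contDiff.comp ((contDiff_norm_sq ℝ).sub contDiff_const)).contDiffOn, fun y hy w => ?_,
      fun y _ => ?_⟩
    · rintro rfl
      simp at hx
    · have hd : HasFDerivAt (fun y : ℂ => L (‖y‖ ^ 2 - 1)) (L.comp (2 • (innerSL ℝ y))) y :=
        L.hasFDerivAt.comp y ((hn y).sub_const 1)
      have hy' : ‖y‖ ≠ 0 := norm_ne_zero_iff.2 hy
      refine ⟨(w 0 / (2 * ‖y‖ ^ 2)) • y, ?_⟩
      rw [hd.fderiv]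
      ext i
      rw [Subsingleton.elim i 0, ContinuousLinearMap.comp_apply, hL]
      simp only [smul_apply, innerSL_apply_apply, inner_smul_right,
        real_inner_self_eq_norm_sq, nsmul_eq_mul]
      field_simp
      simp [mul_comm]
    · rw [hsq, ← sub_eq_zero]
      refine ⟨fun h => by simp only [h, map_zero], fun h => ?_⟩
      rw [← hL (‖y‖ ^ 2 - 1), show L _ = 0 from h]
      rfl
  · let e : UnitAddCircle ≃ₜ Circle := AddCircle.homeomorphCircle one_ne_zero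
    refine ⟨(e : C(UnitAddCircle, Circle)), fun h => ?_⟩
    obtain ⟨y, ⟨F⟩⟩ := ContinuousMap.Nullhomotopic.comp_right (Y := Circle) h
      (e.symm : C(Circle, UnitAddCircle))
    obtain ⟨r, rfl⟩ := QuotientAddGroup.mk_surjective y
    have cov := AddCircle.isCoveringMap_coe (1 : ℝ)
    let G := cov.liftHomotopy F.symm.toContinuousMap (ContinuousMap.const _ r)
      fun s => F.symm.apply_zero s
    have hG : ∀ s : UnitAddCircle, ((G (1, s) : ℝ) : UnitAddCircle) = s := fun s =>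
      (congr_fun (cov.liftHomotopy_lifts F.symm.toContinuousMap (ContinuousMap.const _ r)
        fun s => F.symm.apply_zero s) (1, s)).trans
        ((F.symm.apply_one s).trans (e.symm_apply_apply s))
    have he := cov.eq_of_comp_eq (g₁ := fun t : ℝ => G (1, (t : UnitAddCircle)))
      (g₂ := fun t : ℝ => t + G (1, 0)) (by fun_prop) (by fun_prop)
      (funext fun t => by simp [hG]) 0 (by simp)
    have h1 : G (1, ((1 : ℝ) : UnitAddCircle)) = 1 + G (1, 0) := congr_fun he 1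
    rw [AddCircle.coe_period] at h1
    linarith
  · refine ⟨fun t : ℝ => Complex.exp (t * (a * Complex.I)) * x, by simp,
      Eventually.of_forall fun t => ?_, ?_⟩
    · rw [mem_sphere_zero_iff_norm] at hx ⊢
      rw [norm_mul, hx, Complex.norm_exp]
      simp
    · have := ((Complex.ofRealCLM.hasDerivAt (x := (0 : ℝ))).mul_const
        (a * Complex.I)).cexp.mul_const x
      simpa [mul_assoc] using this
  · rw [mem_sphere_zero_iff_norm] at hx
    simp [hx]
  · have ht : ∀ w ∈ Tan (Metric.sphere (0 : ℂ) 1) x, x.re * w.re + x.im * w.im = 0 := by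
      intro w hw
      have := Tan.fderiv_congr hw (hn x).differentiableAt (differentiableAt_const 1)
        (Eventually.of_forall fun y hy => (hsq y).1 hy)
      rw [(hn x).fderiv] at this
      simp [Complex.inner] at this
      linarith
    have h1 : x.re * x.re + x.im * x.im = 1 := by
      rw [← Complex.normSq_apply, Complex.normSq_eq_norm_sq, (hsq x).1 hx]
    have h2 : u.re * v.im - u.im * v.re = 0 := by
      linear_combination (x.re * v.im - x.im * v.re) * ht u hu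
        - (x.re * u.im - x.im * u.re) * ht v hv - (u.re * v.im - u.im * v.re) * h1
    rw [(hθ x).fderiv]
    simp [Complex.inner]
    linear_combination 2 * a * h2

/-- All hypotheses of `result` hold together, in an example whose level lies on one side of the
zero section (last clause). -/
theorem hypotheses_hold : ∃ (N : Set ℂ) (γ : C(UnitAddCircle, N)) (H : ℂ × ℂ → ℝ) (c : ℝ)
    (W : Set (ℂ × ℂ)) (Y : ℂ × ℂ → ℂ × ℂ) (β : ℂ × ℂ → ℝ) (θ : ℂ → ℂ),
    (∀ x, x ∈ N ↔ ‖x‖ = 1) ∧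
    IsSubmanifold N ∧ IsCompact N ∧ IsPathConnected N ∧ ¬ γ.Nullhomotopic ∧
    ContDiff ℝ ∞ H ∧ (∃ z ∈ Cot N, H z = c) ∧ IsCompact {z | z ∈ Cot N ∧ H z = c} ∧
    IsOpen W ∧ (∀ z ∈ Cot N, H z = c → z ∈ W) ∧ ContDiffOn ℝ ∞ Y W ∧ ContDiffOn ℝ ∞ β W ∧
    ContDiff ℝ ∞ θ ∧
    (∀ x ∈ N, ∀ u ∈ Tan N x, ∀ v ∈ Tan N x,
      ⟪fderiv ℝ θ x u, v⟫_ℝ = ⟪fderiv ℝ θ x v, u⟫_ℝ) ∧
    (∀ z ∈ Cot N, z ∈ W → Y z ∈ Tan (Cot N) z ∧
      ∀ v ∈ Tan (Cot N) z, omega (Y z) v = ⟪z.2 + θ z.1, v.1⟫_ℝ + fderiv ℝ β z v) ∧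
    (∀ z ∈ Cot N, H z = c → fderiv ℝ H z (Y z) ≠ 0) ∧
    ∀ z ∈ Cot N, H z = c → ⟪z.2, θ z.1⟫_ℝ < 0 := by
  obtain ⟨hN, hc, hp, ⟨γ, hγ⟩, hθ, hT, hcl⟩ := circle (-2) _ rfl _ rfl
  obtain ⟨h1, h2, h3, h4, h5, h6⟩ :=
    shifted_level _ hN hc γ hγ _ hθ (fun x hx => (hT x hx).1) _ rfl _ rfl
  refine ⟨_, γ, _, _, univ, _, fun _ => 0, _, fun _ => mem_sphere_zero_iff_norm, hN, hc, hp, hγ,
    h1, h2, h3, isOpen_univ, fun _ _ _ => mem_univ _, h4.contDiffOn, contDiffOn_const, hθ, hcl,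
    fun z hz _ => h5 z hz, h6, fun z hz h => ?_⟩
  have hx : ‖Complex.I * z.1‖ = 1 := by simpa using hz.1
  have hq : ‖z.2 + (-2 : ℝ) • (Complex.I * z.1)‖ = 1 :=
    (pow_eq_one_iff_of_nonneg (norm_nonneg _) two_ne_zero).1 (by linarith)
  have := abs_real_inner_le_norm (z.2 + (-2 : ℝ) • (Complex.I * z.1)) (Complex.I * z.1)
  rw [hq, hx, inner_add_left, real_inner_smul_left, real_inner_self_eq_norm_sq, hx] at this
  rw [real_inner_smul_right]
  linarith [(abs_le.1 this).1]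

end Pool.Agent.Results.MP_e3ee0c_gt.CotangentLevel
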