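import Mathlib
import Pool.Agent.K.MP_e3ee0c_gt.C23

open Set Filter Topology
open scoped ContDiff InnerProductSpace

namespace Pool.Agent.Results.MP_e3ee0c_gt.MagneticWall

open Pool.Agent.Wein

/-- The Weinstein conjecture for all compact levels of contact type in the cotangent bundle of N
with the symplectic form twisted by the curvature σ of a circle bundle π : P → N (vertical field
ξ, connection form α) whose fibres are essential in P, if P has a map to the circle with a section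
whose fibres near zero carry a continuous family of loops, one through each point, with essential
images in N. -/
theorem result {E E' : Type} [NormedAddCommGroup E] [InnerProductSpace ℝ E]
    [FiniteDimensional ℝ E] [NormedAddCommGroup E'] [InnerProductSpace ℝ E']
    [FiniteDimensional ℝ E']
    (N : Set E) (hN : IsSubmanifold N)
    (P : Set E') (hP : IsSubmanifold P) (hc : IsCompact P) (hp : IsPathConnected P)
    (π : E' → E) (hπ : ContDiff ℝ ∞ π) (hon : π '' P = N)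
    (ξ α : E' → E') (hξ : ContDiff ℝ ∞ ξ) (hα : ContDiff ℝ ∞ α)
    (σ : E → E →L[ℝ] E →L[ℝ] ℝ) (hσ : ContDiff ℝ ∞ σ)
    (hsub : ∀ x ∈ P, fderiv ℝ π x '' Tan P x = Tan N (π x))
    (hker : ∀ x ∈ P, ∀ u, (u ∈ Tan P x ∧ fderiv ℝ π x u = 0) ↔ ∃ a : ℝ, u = a • ξ x)
    (hone : ∀ x ∈ P, ⟪α x, ξ x⟫_ℝ = 1)
    (hcurv : ∀ x ∈ P, ∀ u ∈ Tan P x, ∀ v ∈ Tan P x,
      ⟪fderiv ℝ α x u, v⟫_ℝ - ⟪fderiv ℝ α x v, u⟫_ℝ =
        σ (π x) (fderiv ℝ π x u) (fderiv ℝ π x v))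
    (hess : ∀ (γ : C(UnitAddCircle, P)) (a : ℝ), a ≠ 0 →
      (∀ t : ℝ, HasDerivAt (fun s : ℝ => (γ s : E')) (a • ξ (γ t)) t) → ¬ γ.Nullhomotopic)
    (θ : C(P, UnitAddCircle)) (s : C(UnitAddCircle, P)) (hs : ∀ t, θ (s t) = t)
    (d : ℝ) (hd : 0 < d) (l : C({x : P // ‖θ x‖ ≤ d}, C(UnitAddCircle, P)))
    (h0 : ∀ x, l x 0 = x.1) (hθ : ∀ x t, θ (l x t) = θ x.1)
    (hnt : ∀ x, ∀ γ : C(UnitAddCircle, N), (∀ t, (γ t : E) = π (l x t)) → ¬ γ.Nullhomotopic)
    (H : E × E → ℝ) (hH : ContDiff ℝ ∞ H) (c : ℝ) (hne : ∃ z ∈ Cot N, H z = c)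
    (hS : IsCompact {z | z ∈ Cot N ∧ H z = c})
    (W : Set (E × E)) (hW : IsOpen W) (hSW : ∀ z ∈ Cot N, H z = c → z ∈ W)
    (Y : E × E → E × E) (hY : ContDiffOn ℝ ∞ Y W)
    (hL : ∀ z ∈ Cot N, z ∈ W → Y z ∈ Tan (Cot N) z ∧
      ∀ u ∈ Tan (Cot N) z, ∀ v ∈ Tan (Cot N) z,
        omegaM σ z (fderiv ℝ Y z u) v + omegaM σ z u (fderiv ℝ Y z v) +
          fderiv ℝ σ z.1 (Y z).1 u.1 v.1 = omegaM σ z u v)
    (htr : ∀ z ∈ Cot N, H z = c → fderiv ℝ H z (Y z) ≠ 0) :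
    ∃ (z : ℝ → E × E) (T : ℝ), IsOrbitM σ N H z ∧ 0 < T ∧ (∀ t, z (t + T) = z t) ∧
      ∀ t, H (z t) = c := by
  have hm : ∀ x ∈ P, π x ∈ N := fun x hx => hon ▸ mem_image_of_mem π hx
  let g : C(P, N) := ⟨fun x => ⟨π x, hm x x.2⟩,
    (hπ.continuous.comp continuous_subtype_val).subtype_mk _⟩
  obtain ⟨Wl, hWl⟩ := exists_wall0 P θ s hs d hd l h0 hθ fun x h =>
    hnt x (g.comp (l x)) (fun _ => rfl) (h.comp_right g)
  have hNp : IsPathConnected N := hon ▸ hp.image hπ.continuous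
  obtain ⟨RN, rfl⟩ := exists_ret N hN (hon ▸ hc.image hπ.continuous)
  obtain ⟨RP, rfl⟩ := exists_ret P hP hc
  have B : Bun RP RN π ξ α σ :=
    ⟨hπ, hξ, hα, hσ, hm, fun y hy => by rwa [← hon] at hy, fun x hx w hw => by
      have := (RN.mem_tan (hm x hx) w).2 hw
      rw [← hsub x hx] at this
      obtain ⟨u, hu, e⟩ := this
      exact ⟨u, (RP.mem_tan hx u).1 hu, e⟩,
    fun x hx => (RP.mem_tan hx _).1 ((hker x hx _).2 ⟨1, (one_smul _ _).symm⟩).1,
    fun x hx => ((hker x hx _).2 ⟨1, (one_smul _ _).symm⟩).2,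
    fun x hx u hu h => (hker x hx u).1 ⟨(RP.mem_tan hx u).2 hu, h⟩, hone,
    fun x hx u v hu hv => hcurv x hx u ((RP.mem_tan hx u).2 hu) v ((RP.mem_tan hx v).2 hv)⟩
  obtain ⟨D⟩ := B.exists_red
  have hcut : CutOff σ RN.S := D.cutOff hp Wl (fun x hx γ h => by
    obtain ⟨y, hy⟩ := hWl x hx
    exact hnt y γ fun t => by rw [h t, hy t]) hess
  obtain ⟨χ, hχ, -, hs, -, h1⟩ := exists_bump _ W hS hW fun z hz => hSW z hz.1 hz.2
  have hin : ∀ z ∈ Cot RN.S, H z = c → z ∈ interior {y | χ y = 1} := fun z hz h =>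
    mem_interior_iff_mem_nhds.2 (h1.filter_mono (nhds_le_nhdsSet
      (s := {z | z ∈ Cot RN.S ∧ H z = c}) ⟨hz, h⟩))
  have hone : ∀ z ∈ interior {y | χ y = 1}, χ z = 1 := fun z hz =>
    (interior_subset hz : z ∈ {y | χ y = 1})
  refine tgeneral (hσ.differentiable (by simp)) RN hNp (fun x hx u hu => B.skew hx hu) hcut
    H hH c hne hS (fun z => χ z • Y z)
    (contDiff_smul_cut W hW χ hχ hs Y hY) (W ∩ interior {y | χ y = 1})
    (hW.inter isOpen_interior) (fun z hz h => ⟨hSW z hz h, hin z hz h⟩) (fun z hz h => ?_)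
    fun z hz h => ?_
  · have e : (fun y => χ y • Y y) =ᶠ[𝓝 z] Y := by
      filter_upwards [isOpen_interior.mem_nhds h.2] with y hy
      rw [hone y hy, one_smul]
    rw [e.fderiv_eq, hone z h.2, one_smul]
    exact hL z hz h.1
  · rw [hone z (hin z hz h), one_smul]
    exact htr z hz h

/-! Side theorems: controls of the definitions and of the hypotheses of `result`. -/

section Controls

variable {E : Type} [NormedAddCommGroup E] [InnerProductSpace ℝ E]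

/-- Control of IsOrbitM: an orbit is not at rest at a point where some tangent vector Y has
dH(Y) ≠ 0. So the periodic orbit of `result` is nowhere at rest. -/
theorem not_at_rest (σ : E → E →L[ℝ] E →L[ℝ] ℝ) (N : Set E) (H : E × E → ℝ) (z : ℝ → E × E)
    (hz : IsOrbitM σ N H z) (t : ℝ) (Y : E × E) (hY : Y ∈ Tan (Cot N) (z t))
    (htr : fderiv ℝ H (z t) Y ≠ 0) : ¬ HasDerivAt z 0 t := by
  obtain ⟨-, v, hv, h⟩ := hz t
  intro h0
  have h1 := h Y hY
  rw [hv.unique h0] at h1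
  exact htr (by simpa [omegaM, omega] using h1)

lemma tan_cot (R : Ret E) {z : E × E} (hz : z ∈ Cot R.S) (u : E × E) :
    u ∈ Tan (Cot R.S) z ↔
      (R.P z.1 u.1, fderiv ℝ R.P z.1 (R.P z.1 u.1) z.2 + R.P z.1 u.2) = u := by
  rw [← R.fderiv_hat hz]
  exact R.hat.tan_iff hz u

/-- Control of omegaM and IsOrbitM: for the kinetic energy the orbits are the magnetic geodesics
(x' = p, and the tangential part of p' is the Lorentz force of σ). -/
theorem orbit_iff_lorentz [FiniteDimensional ℝ E] (σ : E → E →L[ℝ] E →L[ℝ] ℝ) (N : Set E)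
    (hN : IsSubmanifold N) (hc : IsCompact N) (x p : ℝ → E) :
    IsOrbitM σ N (fun z => ‖z.2‖ ^ 2 / 2) (fun t => (x t, p t)) ↔
      ∀ t, x t ∈ N ∧ HasDerivAt x (p t) t ∧
        ∃ a, HasDerivAt p a t ∧ ∀ w ∈ Tan N (x t), ⟪a, w⟫_ℝ + σ (x t) (p t) w = 0 := by
  obtain ⟨R, rfl⟩ := exists_ret N hN hc
  have hH : ∀ z u : E × E, fderiv ℝ (fun z : E × E => ‖z.2‖ ^ 2 / 2) z u = ⟪z.2, u.2⟫_ℝ := by
    intro z u
    have := ((hasFDerivAt_snd (𝕜 := ℝ) (p := z)).norm_sq).mul_const (2 : ℝ)⁻¹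
    simp only [div_eq_mul_inv]
    rw [this.fderiv]
    simp
  constructor
  · intro h t
    obtain ⟨hz, v, hv, he⟩ := h t
    obtain ⟨hx, hp⟩ := (R.mem_cot _).1 hz
    have hvT : v ∈ Tan (Cot R.S) (x t, p t) :=
      Tan.of_hasDerivAt hv (Eventually.of_forall fun s => (h s).1)
    have hv1 := R.tan_cot_fst hz hvT
    have e1 : v.1 = p t := by
      have := he (0, v.1 - p t) ((tan_cot R hz _).2 (by simp at hv1 hp; simp [hv1, hp]))
      rw [hH] at this
      have h2 : ⟪v.1 - p t, v.1 - p t⟫_ℝ = 0 := by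
        rw [inner_sub_right, real_inner_comm (p t)]
        simp only [omegaM, omega, inner_zero_right, zero_sub, map_zero, add_zero, neg_inj] at this
        rw [this, real_inner_comm, sub_self]
      exact sub_eq_zero.1 (inner_self_eq_zero.1 h2)
    refine ⟨hx, e1 ▸ hv.fst, v.2, hv.snd, fun w hw => ?_⟩
    have hw' := (R.mem_tan hx w).1 hw
    have := he (w, fderiv ℝ R.P (x t) w (p t))
      ((tan_cot R hz _).2 (by simp at hw' hp; simp [hw', R.P_DP hx hw' hp]))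
    rw [hH] at this
    simp only [omegaM, omega, e1] at this
    rw [real_inner_comm (p t)] at this
    linarith
  · intro h t
    obtain ⟨hx, hp, a, ha, hn⟩ := h t
    have hz : (x t, p t) ∈ Cot R.S :=
      ⟨hx, Tan.of_hasDerivAt hp (Eventually.of_forall fun s => (h s).1)⟩
    refine ⟨hz, (p t, a), hp.prodMk ha, fun u hu => ?_⟩
    rw [hH]
    have := hn _ ((R.mem_tan hx _).2 (R.tan_cot_fst hz hu))
    simp only [omegaM, omega]
    rw [real_inner_comm (p t)]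
    linarith

end Controls

lemma rot_deriv (a : ℝ) (x : ℂ) (t : ℝ) :
    HasDerivAt (fun s : ℝ => Complex.exp (s * (a * Complex.I)) * x)
      (a • (Complex.I * (Complex.exp (t * (a * Complex.I)) * x))) t := by
  have := ((Complex.ofRealCLM.hasDerivAt (x := t)).mul_const (a * Complex.I)).cexp.mul_const x
  refine this.congr_deriv ?_
  simp
  ring

lemma rot_norm (a t : ℝ) (x : ℂ) : ‖Complex.exp (t * (a * Complex.I)) * x‖ = ‖x‖ := by
  rw [norm_mul, Complex.norm_exp]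
  simp

lemma perp_eq {x v : ℂ} (hx : ‖x‖ = 1) (h : ⟪x, v⟫_ℝ = 0) : ∃ a : ℝ, v = a • (Complex.I * x) := by
  have h1 : x.re * x.re + x.im * x.im = 1 := by
    rw [← Complex.normSq_apply, Complex.normSq_eq_norm_sq, hx, one_pow]
  have h2 : v.re * x.re + v.im * x.im = 0 := by simpa [Complex.inner] using h
  refine ⟨x.re * v.im - x.im * v.re, Complex.ext ?_ ?_⟩ <;> simp
  · linear_combination x.re * h2 - v.re * h1
  · linear_combination x.im * h2 - v.im * h1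

lemma circ_tan {x : ℂ} (hx : ‖x‖ = 1) (v : ℂ) :
    v ∈ Tan {y : ℂ | ‖y‖ = 1} x ↔ ⟪x, v⟫_ℝ = 0 := by
  constructor
  · intro hv
    have hn := (hasStrictFDerivAt_norm_sq x).hasFDerivAt
    have := Tan.fderiv_congr hv hn.differentiableAt (differentiableAt_const 1)
      (Eventually.of_forall fun y (hy : ‖y‖ = 1) => by rw [hy, one_pow])
    rw [hn.fderiv] at this
    simpa [-Complex.inner] using this
  · intro h
    obtain ⟨a, rfl⟩ := perp_eq hx h
    exact ⟨_, by simp, Eventually.of_forall fun t => (rot_norm a t x).trans hx,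
      by simpa using rot_deriv a x 0⟩

lemma wind (γ : C(UnitAddCircle, {y : ℂ | ‖y‖ = 1})) (a : ℝ)
    (h : ∀ t : ℝ, (γ t : ℂ) = Complex.exp (t * (a * Complex.I)) * γ 0) (hγ : γ.Nullhomotopic) :
    a = 0 := by
  let j : C({y : ℂ | ‖y‖ = 1}, Circle) := ⟨fun y => ⟨y, mem_sphere_zero_iff_norm.2 y.2⟩,
    continuous_subtype_val.subtype_mk _⟩
  obtain ⟨y, ⟨F⟩⟩ := hγ.comp_right j
  have cov := Circle.isCoveringMap_exp
  have h0 : ∀ s, F.symm.toContinuousMap (0, s) =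
      Circle.exp (ContinuousMap.const UnitAddCircle (Complex.arg y) s) := fun s =>
    (F.symm.apply_zero s).trans (Circle.exp_arg y).symm
  let G := cov.liftHomotopy F.symm.toContinuousMap (ContinuousMap.const _ (Complex.arg y)) h0
  have hG : ∀ s : UnitAddCircle, (Circle.exp (G (1, s)) : ℂ) = γ s := fun s =>
    congrArg Subtype.val ((congr_fun (cov.liftHomotopy_lifts F.symm.toContinuousMap _ h0)
      (1, s)).trans (F.symm.apply_one s))
  have he := cov.eq_of_comp_eq (g₁ := fun t : ℝ => G (1, (t : UnitAddCircle)))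
    (g₂ := fun t : ℝ => t * a + G (1, 0)) (by fun_prop) (by fun_prop)
    (funext fun t => Circle.ext (by
      simp only [Function.comp_apply, Circle.exp_add, Circle.coe_mul, hG]
      rw [h t, Circle.coe_exp]
      simp [mul_assoc])) 0 (by simp)
  have h1 : G (1, ((1 : ℝ) : UnitAddCircle)) = 1 * a + G (1, 0) := congr_fun he 1
  rw [AddCircle.coe_period] at h1
  linarith

lemma sub_of_norms {V : Type} [NormedAddCommGroup V] [InnerProductSpace ℝ V] {k : ℕ}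
    (p : Fin k → V →L[ℝ] ℂ) (hp : ∀ w : Fin k → ℂ, ∃ u, ∀ i, p i u = w i) :
    IsSubmanifold {y : V | ∀ i, ‖p i y‖ = 1} := by
  intro x hx
  let e := (EuclideanSpace.equiv (Fin k) ℝ).symm
  have hd : ∀ y, HasFDerivAt (fun y => e fun i => ‖p i y‖ ^ 2 - 1) (e.toContinuousLinearMap.comp
      (ContinuousLinearMap.pi fun i => (2 • innerSL ℝ (p i y)).comp (p i))) y := fun y =>
    e.hasFDerivAt.comp y (hasFDerivAt_pi.2 fun i =>
      ((hasStrictFDerivAt_norm_sq (p i y)).hasFDerivAt.comp y (p i).hasFDerivAt).sub_const 1)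
  refine ⟨k, fun y => e fun i => ‖p i y‖ ^ 2 - 1, ⋂ i, p i ⁻¹' {0}ᶜ,
    isOpen_iInter_of_finite fun i => isOpen_compl_singleton.preimage (p i).continuous,
    mem_iInter.2 fun i h => ?_, (e.contDiff.comp (contDiff_pi.2 fun i =>
      ((p i).contDiff.norm_sq ℝ).sub contDiff_const)).contDiffOn, fun y hy w => ?_, fun y _ => ?_⟩
  · have := hx i
    rw [show p i x = 0 from h] at this
    simp at this
  · obtain ⟨u, hu⟩ := hp fun i => (w i / (2 * ‖p i y‖ ^ 2)) • p i y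
    refine ⟨u, ?_⟩
    rw [(hd y).fderiv]
    ext i
    have : ‖p i y‖ ≠ 0 := norm_ne_zero_iff.2 (mem_iInter.1 hy i)
    simp only [e, ContinuousLinearMap.comp_apply, ContinuousLinearEquiv.coe_coe,
      EuclideanSpace.equiv, PiLp.continuousLinearEquiv_symm_apply, ContinuousLinearMap.pi_apply,
      hu, smul_apply, innerSL_apply_apply, inner_smul_right,
      real_inner_self_eq_norm_sq, nsmul_eq_mul]
    field_simp
    simp [mul_comm]
  · rw [e.map_eq_zero_iff, funext_iff]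
    exact forall_congr' fun i => by
      rw [Pi.zero_apply, sub_eq_zero, pow_eq_one_iff_of_nonneg (norm_nonneg _) two_ne_zero]

/-- All hypotheses of `result` hold together: the circle, the torus over it, no magnetic term, the
kinetic energy and the radial field. -/
theorem hypotheses_hold : ∃ (N : Set ℂ) (P : Set (PiLp 2 fun _ : Fin 2 => ℂ))
    (π : (PiLp 2 fun _ : Fin 2 => ℂ) → ℂ)
    (ξ α : (PiLp 2 fun _ : Fin 2 => ℂ) → PiLp 2 fun _ : Fin 2 => ℂ)
    (σ : ℂ → ℂ →L[ℝ] ℂ →L[ℝ] ℝ) (θ : C(P, UnitAddCircle)) (s : C(UnitAddCircle, P)) (d : ℝ)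
    (l : C({x : P // ‖θ x‖ ≤ d}, C(UnitAddCircle, P))) (H : ℂ × ℂ → ℝ) (c : ℝ) (W : Set (ℂ × ℂ))
    (Y : ℂ × ℂ → ℂ × ℂ),
    (∀ x, x ∈ N ↔ ‖x‖ = 1) ∧ (∀ x, x ∈ P ↔ ∀ i, ‖x i‖ = 1) ∧
    IsSubmanifold N ∧ IsSubmanifold P ∧ IsCompact P ∧ IsPathConnected P ∧
    ContDiff ℝ ∞ π ∧ π '' P = N ∧ ContDiff ℝ ∞ ξ ∧ ContDiff ℝ ∞ α ∧ ContDiff ℝ ∞ σ ∧
    (∀ x ∈ P, fderiv ℝ π x '' Tan P x = Tan N (π x)) ∧
    (∀ x ∈ P, ∀ u, (u ∈ Tan P x ∧ fderiv ℝ π x u = 0) ↔ ∃ a : ℝ, u = a • ξ x) ∧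
    (∀ x ∈ P, ⟪α x, ξ x⟫_ℝ = 1) ∧
    (∀ x ∈ P, ∀ u ∈ Tan P x, ∀ v ∈ Tan P x,
      ⟪fderiv ℝ α x u, v⟫_ℝ - ⟪fderiv ℝ α x v, u⟫_ℝ =
        σ (π x) (fderiv ℝ π x u) (fderiv ℝ π x v)) ∧
    (∀ (γ : C(UnitAddCircle, P)) (a : ℝ), a ≠ 0 →
      (∀ t : ℝ, HasDerivAt (fun s : ℝ => (γ s : PiLp 2 fun _ : Fin 2 => ℂ)) (a • ξ (γ t)) t) →
        ¬ γ.Nullhomotopic) ∧
    (∀ t, θ (s t) = t) ∧ 0 < d ∧ (∀ x, l x 0 = x.1) ∧ (∀ x t, θ (l x t) = θ x.1) ∧
    (∀ x, ∀ γ : C(UnitAddCircle, N), (∀ t, (γ t : ℂ) = π (l x t)) → ¬ γ.Nullhomotopic) ∧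
    ContDiff ℝ ∞ H ∧ (∃ z ∈ Cot N, H z = c) ∧ IsCompact {z | z ∈ Cot N ∧ H z = c} ∧
    IsOpen W ∧ (∀ z ∈ Cot N, H z = c → z ∈ W) ∧ ContDiffOn ℝ ∞ Y W ∧
    (∀ z ∈ Cot N, z ∈ W → Y z ∈ Tan (Cot N) z ∧
      ∀ u ∈ Tan (Cot N) z, ∀ v ∈ Tan (Cot N) z,
        omegaM σ z (fderiv ℝ Y z u) v + omegaM σ z u (fderiv ℝ Y z v) +
          fderiv ℝ σ z.1 (Y z).1 u.1 v.1 = omegaM σ z u v) ∧
    ∀ z ∈ Cot N, H z = c → fderiv ℝ H z (Y z) ≠ 0 := by
  let V := PiLp 2 fun _ : Fin 2 => ℂ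
  let p : Fin 2 → V →L[ℝ] ℂ := fun i => PiLp.proj 2 (fun _ : Fin 2 => ℂ) i
  let e : (Fin 2 → ℂ) ≃L[ℝ] V := (PiLp.continuousLinearEquiv 2 ℝ fun _ : Fin 2 => ℂ).symm
  let P : Set V := {y | ∀ i, ‖p i y‖ = 1}
  let X : V →L[ℝ] V := e.toContinuousLinearMap.comp (ContinuousLinearMap.pi
    ![0, (ContinuousLinearMap.mul ℝ ℂ Complex.I).comp (p 1)])
  have hp : ∀ i (x : V), p i x = x i := fun _ _ => rfl
  have he : ∀ w i, e w i = w i := fun _ _ => rfl
  have X0 : ∀ x : V, X x 0 = 0 := fun _ => rfl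
  have X1 : ∀ x : V, X x 1 = Complex.I * x 1 := fun _ => rfl
  have hT : ∀ x ∈ P, ∀ u, u ∈ Tan P x ↔ ∀ i, ⟪x i, u i⟫_ℝ = 0 := fun x hx u => by
    refine ⟨fun h i => (circ_tan (hx i) _).1 ?_, fun h => ?_⟩
    · have := Tan.map (S' := {y : ℂ | ‖y‖ = 1}) h (p i).differentiableAt
        (Eventually.of_forall fun y hy => hy i)
      rwa [(p i).fderiv] at this
    · choose a ha using fun i => perp_eq (hx i) (h i)
      refine ⟨fun t => e fun i => Complex.exp (t * (a i * Complex.I)) * x i, ?_,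
        Eventually.of_forall fun t i => (rot_norm _ _ _).trans (hx i), ?_⟩
      · ext i
        simp [he]
      · have := e.hasFDerivAt.comp_hasDerivAt (0 : ℝ)
          (hasDerivAt_pi.2 fun i => rot_deriv (a i) (x i) 0)
        refine this.congr_deriv ?_
        ext i
        rw [ha i]
        simp [he, hp]
  have hin : ∀ u v : V, ⟪u, v⟫_ℝ = ⟪u 0, v 0⟫_ℝ + ⟪u 1, v 1⟫_ℝ := fun u v => by
    rw [PiLp.inner_apply, Fin.sum_univ_two]
  let c : UnitAddCircle ≃ₜ Circle := AddCircle.homeomorphCircle one_ne_zero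
  have hc : ∀ t : ℝ, (c t : ℂ) = Complex.exp (t * ((2 * Real.pi : ℝ) * Complex.I)) := fun t => by
    rw [AddCircle.homeomorphCircle_apply, AddCircle.toCircle_apply_mk, Circle.coe_exp]
    congr 1
    push_cast
    ring
  have c0 : (c 0 : ℂ) = 1 := by simpa using hc 0
  let q : C(P, Circle) := ⟨fun x => ⟨p 1 x, mem_sphere_zero_iff_norm.2 (x.2 1)⟩,
    ((p 1).continuous.comp continuous_subtype_val).subtype_mk _⟩
  let m : C(P × UnitAddCircle × UnitAddCircle, P) :=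
    ⟨fun y => ⟨e ![c y.2.1 * p 0 y.1, c y.2.2 * p 1 y.1], fun i => by
      fin_cases i
      · exact (norm_mul _ _).trans (by rw [Circle.norm_coe, y.1.2 0, one_mul])
      · exact (norm_mul _ _).trans (by rw [Circle.norm_coe, y.1.2 1, one_mul])⟩,
      (e.continuous.comp (continuous_pi fun i => by fin_cases i <;> simp <;> fun_prop)).subtype_mk _⟩
  let o : P := ⟨e fun _ => 1, fun _ => norm_one⟩
  have hP : P = range fun y : UnitAddCircle × UnitAddCircle => (m (o, y) : V) := by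
    refine Subset.antisymm (fun x hx => ⟨(c.symm ⟨p 0 x, mem_sphere_zero_iff_norm.2 (hx 0)⟩,
      c.symm ⟨p 1 x, mem_sphere_zero_iff_norm.2 (hx 1)⟩), ?_⟩) ?_
    · ext i
      fin_cases i <;> simp [m, o, he, hp]
    · rintro _ ⟨y, rfl⟩
      exact (m _).2
  have hm : Continuous fun y : UnitAddCircle × UnitAddCircle => (m (o, y) : V) := by fun_prop
  have hCot : ∀ z : ℂ × ℂ, z ∈ Cot {y : ℂ | ‖y‖ = 1} ↔ ‖z.1‖ = 1 ∧ ⟪z.1, z.2⟫_ℝ = 0 := fun z =>
    and_congr_right fun h => circ_tan h _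
  have hH : ∀ z u : ℂ × ℂ, fderiv ℝ (fun z : ℂ × ℂ => ‖z.2‖ ^ 2) z u = 2 * ⟪z.2, u.2⟫_ℝ := by
    intro z u
    rw [((hasFDerivAt_snd (𝕜 := ℝ) (p := z)).norm_sq).fderiv]
    simp [-Complex.inner]
  let Y : ℂ × ℂ →L[ℝ] ℂ × ℂ := (ContinuousLinearMap.inr ℝ ℂ ℂ).comp (ContinuousLinearMap.snd ℝ ℂ ℂ)
  refine ⟨{y | ‖y‖ = 1}, P, p 0, X, X, fun _ => 0, (c.symm : C(Circle, UnitAddCircle)).comp q,
    ⟨fun t => m (o, 0, t), by fun_prop⟩, 1,
    ContinuousMap.curry ⟨fun y => m (y.1.1, y.2, 0), by fun_prop⟩, fun z => ‖z.2‖ ^ 2, 1, univ, Y,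
    fun _ => Iff.rfl, fun _ => Iff.rfl, ?_, sub_of_norms p fun w => ⟨e w, fun _ => rfl⟩,
    hP ▸ isCompact_range hm, hP ▸ isPathConnected_range hm, (p 0).contDiff, ?_, X.contDiff,
    X.contDiff, contDiff_const, fun x hx => ?_, fun x hx u => ?_, fun x hx => ?_,
    fun x hx u hu v hv => ?_, fun γ a ha h hγ => ha ?_, fun t => ?_, one_pos, fun x => ?_,
    fun x t => ?_, fun x γ h hγ => ?_, contDiff_snd.norm_sq ℝ,
    ⟨(1, Complex.I), (hCot _).2 (by simp), by simp⟩, ?_, isOpen_univ, fun _ _ _ => mem_univ _,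
    Y.contDiff.contDiffOn, fun z hz _ => ⟨?_, fun u _ v _ => ?_⟩, fun z _ h => ?_⟩
  · simpa using sub_of_norms (fun _ : Fin 1 => ContinuousLinearMap.id ℝ ℂ)
      fun w => ⟨w 0, fun i => by rw [Subsingleton.elim i 0]; rfl⟩
  · exact Subset.antisymm (image_subset_iff.2 fun x hx => hx 0)
      fun y hy => ⟨e fun _ => y, fun _ => hy, rfl⟩
  · rw [(p 0).fderiv]
    refine Subset.antisymm (image_subset_iff.2 fun u hu =>
      (circ_tan (hx 0) _).2 ((hT x hx u).1 hu 0)) fun v hv =>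
        ⟨e ![v, 0], (hT x hx _).2 fun i => ?_, rfl⟩
    fin_cases i
    · exact (circ_tan (hx 0) _).1 hv
    · exact inner_zero_right _
  · rw [(p 0).fderiv, hT x hx]
    constructor
    · rintro ⟨h, h0⟩
      obtain ⟨a, ha⟩ := perp_eq (hx 1) (h 1)
      refine ⟨a, PiLp.ext fun i => ?_⟩
      fin_cases i
      · exact h0.trans (smul_zero a).symm
      · exact ha
    · rintro ⟨a, rfl⟩
      refine ⟨fun i => ?_, smul_zero a⟩
      fin_cases i <;> simp [X0, X1, Complex.inner]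
      ring
  · have : ‖x 1‖ = 1 := hx 1
    rw [hin, X0, X1, real_inner_self_eq_norm_sq, real_inner_self_eq_norm_sq]
    simp [this]
  · obtain ⟨a, ha⟩ := perp_eq (hx 1) ((hT x hx u).1 hu 1)
    obtain ⟨b, hb⟩ := perp_eq (hx 1) ((hT x hx v).1 hv 1)
    rw [X.fderiv, hin, hin, X0, X0, X1, X1, ha, hb]
    simp [Complex.inner]
    ring
  · let r : C(P, {y : ℂ | ‖y‖ = 1}) := ⟨fun x => ⟨p 1 x, x.2 1⟩,
      ((p 1).continuous.comp continuous_subtype_val).subtype_mk _⟩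
    refine wind (r.comp γ) a (fun t => ?_) (hγ.comp_right r)
    have hd : ∀ t : ℝ, HasDerivAt (fun s : ℝ => Complex.exp (s * ((-a : ℝ) * Complex.I)) *
        p 1 (γ s)) 0 t := fun t => by
      have := (rot_deriv (-a) 1 t).mul ((p 1).hasFDerivAt.comp_hasDerivAt t (h t))
      simp only [mul_one] at this
      refine this.congr_deriv ?_
      simp [hp, X1]
      ring
    have := is_const_of_deriv_eq_zero (fun t => (hd t).differentiableAt) (fun t => (hd t).deriv) t 0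
    show p 1 (γ t) = _ * p 1 (γ 0)
    simp only [Complex.ofReal_zero, zero_mul, Complex.exp_zero, one_mul] at this
    rw [show (γ 0 : V) = γ ((0 : ℝ) : UnitAddCircle) from rfl, ← this, ← mul_assoc,
      ← Complex.exp_add]
    simp
  · exact (congrArg c.symm (Circle.ext (mul_one _))).trans (c.symm_apply_apply t)
  · refine Subtype.ext (PiLp.ext fun i => ?_)
    fin_cases i <;> simp [m, he, hp, c0]
  · exact congrArg c.symm (Circle.ext (by simp [q, m, he, hp, c0]))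
  · refine Real.two_pi_pos.ne' (wind γ _ (fun t => ?_) hγ)
    rw [h, h, ← hc]
    simp [m, he, hp, c0]
  · refine ((isCompact_sphere (0 : ℂ) 1).prod (isCompact_sphere (0 : ℂ) 1)).of_isClosed_subset
      ?_ fun z hz => ⟨mem_sphere_zero_iff_norm.2 hz.1.1, mem_sphere_zero_iff_norm.2
        ((pow_eq_one_iff_of_nonneg (norm_nonneg _) two_ne_zero).1 hz.2)⟩
    simp only [hCot]
    exact ((isClosed_eq (by fun_prop) continuous_const).inter
      (isClosed_eq (by fun_prop) continuous_const)).inter (isClosed_eq (by fun_prop) continuous_const)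
  · refine ⟨fun t => (z.1, (1 + t) • z.2), by simp, Eventually.of_forall fun t =>
      (hCot _).2 ⟨hz.1, by rw [inner_smul_right, ((hCot z).1 hz).2, mul_zero]⟩, ?_⟩
    simpa [Y] using (hasDerivAt_const (0 : ℝ) z.1).prodMk
      (((hasDerivAt_id (0 : ℝ)).const_add 1).smul_const z.2)
  · rw [Y.fderiv]
    simp [omegaM, omega, Y, -Complex.inner]
    ring
  · rw [hH]
    simp [Y, h, -Complex.inner]

end Pool.Agent.Results.MP_e3ee0c_gt.MagneticWall
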