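import Pool.Agent.K.MP_e3ee0c_gt.C24

theorem Pool.Agent.Results.MP_e3ee0c_gt.Nilflow.result
    {A : Type*} [NormedRing A] [NormedAlgebra ℝ A] [FiniteDimensional ℝ A]
    (n : Submodule ℝ A) (hbr : ∀ Y ∈ n, ∀ Z ∈ n, Y * Z - Z * Y ∈ n)
    (hn : ∀ Y ∈ n, IsNilpotent Y)
    (G : Subgroup Aˣ) (hG : ∀ g : Aˣ, g ∈ G ↔ ∃ Y ∈ n, (g : A) = NormedSpace.exp Y)
    (Γ : Subgroup G) [DiscreteTopology Γ] [CompactSpace (G ⧸ Γ)]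
    (α : A → A →L[ℝ] ℝ) (hα : ContDiff ℝ 2 α)
    (hinv : ∀ g : G, ∀ γ ∈ Γ, ∀ Y ∈ n,
      α ((g * γ : G) : Aˣ) (Y * ((g * γ : G) : Aˣ)) = α (g : Aˣ) (Y * (g : Aˣ)))
    (X : A) (hX : X ∈ n) (hX0 : X ≠ 0)
    (hker : ∀ g : G, ∀ Y ∈ n, (∀ Z ∈ n, fderiv ℝ α (g : Aˣ) (Y * (g : Aˣ)) (Z * (g : Aˣ)) -
      fderiv ℝ α (g : Aˣ) (Z * (g : Aˣ)) (Y * (g : Aˣ)) = 0) ↔ ∃ c : ℝ, Y = c • X)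
    (R : G → A) (hR : Continuous R)
    (hRX : ∀ g : G, ∃ c : ℝ, c ≠ 0 ∧ R g = c • (X * (g : Aˣ)))
    (hRΓ : ∀ g : G, ∀ γ ∈ Γ, R (g * γ) = R g * (γ : Aˣ)) (g : G) :
    ∃ x : ℝ → G, x 0 = g ∧ (∀ t, HasDerivAt (fun s => ((x s : Aˣ) : A)) (R (x t)) t) ∧
      ∃ T > 0, ∀ t, (x (t + T) : G ⧸ Γ) = (x t : G ⧸ Γ) :=
  Pool.Agent.P.MP_e3ee0c_gt.Nil.nilflow n hbr hn G hG Γ α hα hinv X hX hX0 hker R hR hRX hRΓ g
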