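import Pool.Agent.K.MP_e3ee0c_gt.C25

open Manifold Pool.Agent.P.MP_e3ee0c_gt
open scoped ContDiff

theorem Pool.Agent.Results.MP_e3ee0c_gt.TwistedTorusEnds.result
    {E : Type} [NormedAddCommGroup E] [NormedSpace ℝ E] [FiniteDimensional ℝ E]
    {M : Type} [TopologicalSpace M] [ChartedSpace E M] [IsManifold 𝓘(ℝ, E) ∞ M] [T2Space M]
    [SecondCountableTopology M]
    (σ : M → E →L[ℝ] E →L[ℝ] ℝ) (hσ : IsSymplectic σ)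
    (H : M → ℝ) (hH : ContMDiff 𝓘(ℝ, E) 𝓘(ℝ, ℝ) ∞ H)
    (XH : M → E) (hX : ∀ p v, σ p (XH p) v = -dif E ℝ H p v)
    (c : ℝ) (hc : IsCompact (H ⁻¹' {c})) (hne : (H ⁻¹' {c}).Nonempty)
    (hct : ∃ Y, IsTransverseLiouville σ H c Y)
    {N : Type} [TopologicalSpace N] [ChartedSpace E N] [IsManifold 𝓘(ℝ, E) ∞ N] [T2Space N]
    (π : N → M) (Γ : Type) [Group Γ] [MulAction Γ N] (k : ℕ) (hk : 0 < k)
    (ρ : Γ →* GL (Fin k) ℤ) (φ : (Fin k → ℝ) → N → N) (hT : IsTwistedTorus σ H c π Γ ρ φ)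
    (G : Type) [Group G] (q : Γ →* G) (hq : Function.Surjective q) (ρ' : G →* GL (Fin k) ℤ)
    (hρ : ∀ γ, ρ γ = ρ' (q γ)) (hG : ¬ OneEnded G) :
    ∃ x : ℝ → M, IsMIntegralCurve (I := 𝓘(ℝ, E)) x XH ∧ (∀ t, H (x t) = c) ∧
      ∃ T > 0, ∀ t, x (t + T) = x t :=
  hct.elim fun _ hY => hT.ends hσ hH hX hY hc hne hk hq hρ hG
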